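import Mathlib
import Pool.Agent.W223.AK.Basic

/-!
AK-TW of helper223's project on MP_a793bb_nt: the two-variable energy bound, from the bound for
pairs of coprime ideals.
-/

set_option autoImplicit false

namespace Pool.Agent.W63.AKTW

open NumberField IsDedekindDomain Finset Pool.Agent.H691R3 Pool.Agent.W223.AK

variable {K : Type} [Field K] [NumberField K]

/-- conditions on a reduced pair -/
def Red (S : Finset (Pr K)) (f : Idl K) (u : ℝ) (p : Idl K × Idl K) : Prop :=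
  OffS S p.1 ∧ OffS S p.2 ∧ Cop p.1 f ∧ Cop p.2 f ∧ Cop p.1 p.2 ∧ len p.1 ≤ u ∧ len p.2 ≤ u

/-- one half of the argument: count the first pair trivially, the second one with `P1` -/
theorem half {S : Finset (Pr K)} {w : Pr K → K} (hP : StmtP1 S w) (hC : StmtCNT K)
    (hne : ∀ v, w v ≠ 0) (k l : ℕ) (hl : 1 ≤ l) (hSl : SGood S l) (ε A : ℝ) (hε : 0 < ε)
    (hA : 0 ≤ A) : ∃ D : ℝ, 0 < D ∧
    ∀ (X u v : ℝ) (f : Idl K) (V : Finset (Pl K)) (σ : Pl K → ℝ) (y₀ : K)
      (Q : Finset ((Idl K × Idl K) × (Idl K × Idl K))),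
    0 ≤ u → u ≤ X → 0 ≤ v → v ≤ X → OffS S f → len f ≤ X → V ⊆ Spl S → (∀ v ∈ V, 0 ≤ σ v) →
    y₀ ≠ 0 →
    (∀ t ∈ Q, Red S f u t.1 ∧ Red S f v t.2 ∧
      Cl f V σ A (y₀ * (gen w t.1.1 / gen w t.1.2) ^ k * (gen w t.2.1 / gen w t.2.2) ^ l)) →
    (Q.card : ℝ) ≤ D * Real.exp (3 * ε * X) * (Real.exp (2 * u) *
      (1 + Real.exp (2 * v - lenM f V σ))) := by
  classical
  obtain ⟨D₁, hD₁, h1⟩ := hP l hl hSl ε A hε hA
  obtain ⟨D₂, hD₂, h2⟩ := hC ε hε
  refine ⟨D₂ * D₂ * D₁, by positivity, ?_⟩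
  intro X u v f V σ y₀ Q hu huX hv hvX hf hfX hV hσ hy hQ
  have hX : 0 ≤ X := hu.trans huX
  -- the first pairs
  set I : Finset (Idl K × Idl K) := Q.image Prod.fst with hI
  have hIr : ∀ p ∈ I, Red S f u p := by
    intro p hp
    obtain ⟨t, ht, rfl⟩ := Finset.mem_image.1 hp
    exact (hQ t ht).1
  have hIc : (I.card : ℝ) ≤ (D₂ * Real.exp (u + ε * X)) * (D₂ * Real.exp (u + ε * X)) := by
    have hs : I ⊆ (I.image Prod.fst) ×ˢ (I.image Prod.snd) := by
      intro p hp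
      rw [Finset.mem_product]
      exact ⟨Finset.mem_image_of_mem _ hp, Finset.mem_image_of_mem _ hp⟩
    have hc := Finset.card_le_card hs
    rw [Finset.card_product] at hc
    have h3 : ((I.image Prod.fst).card : ℝ) ≤ D₂ * Real.exp (u + ε * X) := by
      refine h2 X u _ hX ?_
      intro a ha
      obtain ⟨p, hp, rfl⟩ := Finset.mem_image.1 ha
      have h4 := (hIr p hp).2.2.2.2.2.1
      exact ⟨(rl_le_len _).trans h4, h4.trans huX⟩
    have h5 : ((I.image Prod.snd).card : ℝ) ≤ D₂ * Real.exp (u + ε * X) := by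
      refine h2 X u _ hX ?_
      intro a ha
      obtain ⟨p, hp, rfl⟩ := Finset.mem_image.1 ha
      have h4 := (hIr p hp).2.2.2.2.2.2
      exact ⟨(rl_le_len _).trans h4, h4.trans huX⟩
    calc (I.card : ℝ) ≤ ((I.image Prod.fst).card : ℝ) * ((I.image Prod.snd).card : ℝ) := by
          exact_mod_cast hc
      _ ≤ _ := mul_le_mul h3 h5 (Nat.cast_nonneg _) (by positivity)
  -- the fibres
  set B : ℝ := D₁ * Real.exp (ε * X) * (1 + Real.exp (2 * v - lenM f V σ)) with hB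
  have hB0 : 0 ≤ B := by positivity
  have hfib : ∀ p ∈ I, ((Q.filter fun t => t.1 = p).card : ℝ) ≤ B := by
    intro p hp
    have hinj : Set.InjOn (Prod.snd : (Idl K × Idl K) × (Idl K × Idl K) → Idl K × Idl K)
        (((Q.filter fun t => t.1 = p) : Finset ((Idl K × Idl K) × (Idl K × Idl K))) :
          Set ((Idl K × Idl K) × (Idl K × Idl K))) := by
      intro t ht t' ht' h
      have h3 := (Finset.mem_filter.1 (Finset.mem_coe.1 ht)).2
      have h4 := (Finset.mem_filter.1 (Finset.mem_coe.1 ht')).2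
      exact Prod.ext (h3.trans h4.symm) h
    rw [← Finset.card_image_of_injOn hinj]
    refine h1 X v f V σ (y₀ * (gen w p.1 / gen w p.2) ^ k) _ hv hvX hf hfX hV hσ ?_ ?_
    · have hg : ∀ a : Idl K, gen w a ≠ 0 := fun a =>
        Finset.prod_ne_zero_iff.mpr fun v _ => pow_ne_zero _ (hne v)
      exact mul_ne_zero hy (pow_ne_zero _ (div_ne_zero (hg _) (hg _)))
    · intro q hq
      obtain ⟨t, ht, rfl⟩ := Finset.mem_image.1 hq
      obtain ⟨htQ, htp⟩ := Finset.mem_filter.1 ht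
      obtain ⟨-, ⟨r1, r2, r3, r4, r5, r6, r7⟩, r8⟩ := hQ t htQ
      rw [htp] at r8
      exact ⟨r1, r2, r3, r4, r5, r6, r7, r8⟩
  have hcard : (Q.card : ℝ) ≤ I.card * B := by
    rw [Finset.card_eq_sum_card_image Prod.fst Q]
    push_cast
    calc ∑ p ∈ I, ((Q.filter fun t => t.1 = p).card : ℝ) ≤ ∑ _p ∈ I, B :=
          Finset.sum_le_sum hfib
      _ = I.card * B := by rw [Finset.sum_const, nsmul_eq_mul]
  calc (Q.card : ℝ) ≤ I.card * B := hcard
    _ ≤ ((D₂ * Real.exp (u + ε * X)) * (D₂ * Real.exp (u + ε * X))) * B :=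
        mul_le_mul_of_nonneg_right hIc hB0
    _ = D₂ * D₂ * D₁ * Real.exp (3 * ε * X) * (Real.exp (2 * u) *
      (1 + Real.exp (2 * v - lenM f V σ))) := by
        have e1 : Real.exp (3 * ε * X) * Real.exp (2 * u) =
            Real.exp (u + ε * X) * Real.exp (u + ε * X) * Real.exp (ε * X) := by
          rw [← Real.exp_add, ← Real.exp_add, ← Real.exp_add]
          congr 1
          ring
        rw [hB]
        linear_combination (-(D₂ * D₂ * D₁ * (1 + Real.exp (2 * v - lenM f V σ)))) * e1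

/-- the reduced pair -/
noncomputable def rd (p : Idl K × Idl K) : Idl K × Idl K := (p.1 - p.1 ⊓ p.2, p.2 - p.1 ⊓ p.2)

omit [NumberField K] in
theorem inf_add_left (a b : Idl K) : a ⊓ b + (a - a ⊓ b) = a := by
  ext v
  simp only [Finsupp.add_apply, Finsupp.inf_apply, Finsupp.tsub_apply]
  omega

omit [NumberField K] in
theorem inf_add_right (a b : Idl K) : a ⊓ b + (b - a ⊓ b) = b := by
  ext v
  simp only [Finsupp.add_apply, Finsupp.inf_apply, Finsupp.tsub_apply]
  omega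

theorem red_rd {S : Finset (Pr K)} {f : Idl K} {u : ℝ} {a b : Idl K}
    (ha : OffS S a ∧ Cop a f ∧ len a ≤ u) (hb : OffS S b ∧ Cop b f ∧ len b ≤ u) :
    Red S f (u - len (a ⊓ b)) (rd (a, b)) := by
  have h1 := congrArg len (inf_add_left a b)
  have h2 := congrArg len (inf_add_right a b)
  rw [len_add] at h1 h2
  have hla : a - a ⊓ b ≤ a := tsub_le_self
  have hlb : b - a ⊓ b ≤ b := tsub_le_self
  refine ⟨ha.1.mono hla, hb.1.mono hlb, ha.2.1.mono_left hla, hb.2.1.mono_left hlb, ?_, ?_, ?_⟩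
  · intro v
    simp only [rd, Finsupp.inf_apply, Finsupp.tsub_apply]
    omega
  · show len (a - a ⊓ b) ≤ _
    linarith [ha.2.2]
  · show len (b - a ⊓ b) ≤ _
    linarith [hb.2.2]

theorem gen_rd {w : Pr K → K} (hne : ∀ v, w v ≠ 0) (a b : Idl K) :
    gen w (rd (a, b)).1 / gen w (rd (a, b)).2 = gen w a / gen w b := by
  have hg : ∀ a : Idl K, gen w a ≠ 0 := fun a =>
    Finset.prod_ne_zero_iff.mpr fun v _ => pow_ne_zero _ (hne v)
  have h1 : gen w a = gen w (a ⊓ b) * gen w (a - a ⊓ b) := by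
    rw [← gen_add, inf_add_left]
  have h2 : gen w b = gen w (a ⊓ b) * gen w (b - a ⊓ b) := by
    rw [← gen_add, inf_add_right]
  rw [h1, h2, mul_div_mul_left _ _ (hg _)]
  rfl

/-- the elementary inequality -/
theorem min_bound (R u v Λ x : ℝ) (hR : 0 ≤ R)
    (h1 : x ≤ R * (Real.exp (2 * u) * (1 + Real.exp (2 * v - Λ))))
    (h2 : x ≤ R * (Real.exp (2 * v) * (1 + Real.exp (2 * u - Λ)))) :
    x ≤ R * (Real.exp (u + v) * (1 + Real.exp (u + v - Λ))) := by
  have e1 : Real.exp (2 * u) * (1 + Real.exp (2 * v - Λ)) =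
      Real.exp (2 * u) + Real.exp (2 * (u + v) - Λ) := by
    rw [mul_add, mul_one, ← Real.exp_add]; congr 2; ring
  have e2 : Real.exp (2 * v) * (1 + Real.exp (2 * u - Λ)) =
      Real.exp (2 * v) + Real.exp (2 * (u + v) - Λ) := by
    rw [mul_add, mul_one, ← Real.exp_add]; congr 2; ring
  have e3 : Real.exp (u + v) * (1 + Real.exp (u + v - Λ)) =
      Real.exp (u + v) + Real.exp (2 * (u + v) - Λ) := by
    rw [mul_add, mul_one, ← Real.exp_add]; congr 2; ring
  rw [e1] at h1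
  rw [e2] at h2
  rw [e3]
  rcases le_total u v with h | h
  · refine h1.trans (mul_le_mul_of_nonneg_left ?_ hR)
    have : Real.exp (2 * u) ≤ Real.exp (u + v) := Real.exp_le_exp.2 (by linarith)
    linarith
  · refine h2.trans (mul_le_mul_of_nonneg_left ?_ hR)
    have : Real.exp (2 * v) ≤ Real.exp (u + v) := Real.exp_le_exp.2 (by linarith)
    linarith

theorem tw {S : Finset (Pr K)} {w : Pr K → K} (hP : StmtP1 S w) (hC : StmtCNT K)
    (hG : StmtGCD K) (hne : ∀ v, w v ≠ 0) : StmtTW S w := by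
  classical
  intro k l hk hl hSk hSl ε A hε hA
  have hε5 : 0 < ε / 5 := by positivity
  obtain ⟨D₁, hD₁, h1⟩ := half hP hC hne k l hl hSl (ε / 5) A hε5 hA
  obtain ⟨D₂, hD₂, h2⟩ := half hP hC hne l k hk hSk (ε / 5) A hε5 hA
  obtain ⟨D₃, hD₃, h3⟩ := hG (ε / 5) hε5
  refine ⟨max D₁ D₂ * (D₃ * D₃), by positivity, ?_⟩
  intro X a b f V σ y₀ Q ha haX hb hbX hf hfX hV hσ hy hQ
  have hX : 0 ≤ X := ha.trans haX
  set Λ : ℝ := lenM f V σ with hΛ
  set R : ℝ := max D₁ D₂ * Real.exp (3 * (ε / 5) * X) with hR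
  have hR0 : 0 ≤ R := by positivity
  set M : ℝ := Real.exp (a + b) * (1 + Real.exp (a + b - Λ)) with hM
  have hM0 : 0 ≤ M := by positivity
  set ψ : (Idl K × Idl K) × (Idl K × Idl K) → Idl K × Idl K :=
    fun t => (t.1.1 ⊓ t.1.2, t.2.1 ⊓ t.2.2) with hψ
  -- the fibres of the pair of greatest common divisors
  have hfib : ∀ g ∈ Q.image ψ, ((Q.filter fun t => ψ t = g).card : ℝ) ≤
      R * M * (Real.exp (-len g.1) * Real.exp (-len g.2)) := by
    intro g hg
    obtain ⟨t₀, ht₀, hgt⟩ := Finset.mem_image.1 hg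
    obtain ⟨⟨-, -, q1⟩, -, ⟨-, -, q2⟩, -⟩ := hQ t₀ ht₀
    have hg1 : len g.1 ≤ a := by
      rw [← hgt]
      exact (len_mono inf_le_left).trans q1
    have hg2 : len g.2 ≤ b := by
      rw [← hgt]
      exact (len_mono inf_le_left).trans q2
    set u : ℝ := a - len g.1 with hu
    set v : ℝ := b - len g.2 with hv
    have hu0 : 0 ≤ u := by linarith
    have hv0 : 0 ≤ v := by linarith
    have huX : u ≤ X := by linarith [len_nonneg g.1]
    have hvX : v ≤ X := by linarith [len_nonneg g.2]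
    set F : Finset ((Idl K × Idl K) × (Idl K × Idl K)) := Q.filter fun t => ψ t = g with hF
    have hinj : Set.InjOn (fun t : (Idl K × Idl K) × (Idl K × Idl K) => (rd t.1, rd t.2))
        (F : Set _) := by
      intro t ht t' ht' h
      have h5 := (Finset.mem_filter.1 (Finset.mem_coe.1 ht)).2
      have h6 := (Finset.mem_filter.1 (Finset.mem_coe.1 ht')).2
      have e1 : t.1.1 ⊓ t.1.2 = t'.1.1 ⊓ t'.1.2 :=
        (congrArg Prod.fst h5).trans (congrArg Prod.fst h6).symm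
      have e2 : t.2.1 ⊓ t.2.2 = t'.2.1 ⊓ t'.2.2 :=
        (congrArg Prod.snd h5).trans (congrArg Prod.snd h6).symm
      have e3 : rd t.1 = rd t'.1 := congrArg Prod.fst h
      have e4 : rd t.2 = rd t'.2 := congrArg Prod.snd h
      have c1 : t.1.1 - t.1.1 ⊓ t.1.2 = t'.1.1 - t'.1.1 ⊓ t'.1.2 := congrArg Prod.fst e3
      have c2 : t.1.2 - t.1.1 ⊓ t.1.2 = t'.1.2 - t'.1.1 ⊓ t'.1.2 := congrArg Prod.snd e3
      have c3 : t.2.1 - t.2.1 ⊓ t.2.2 = t'.2.1 - t'.2.1 ⊓ t'.2.2 := congrArg Prod.fst e4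
      have c4 : t.2.2 - t.2.1 ⊓ t.2.2 = t'.2.2 - t'.2.1 ⊓ t'.2.2 := congrArg Prod.snd e4
      have d1 : t.1.1 = t'.1.1 := by
        rw [← inf_add_left t.1.1 t.1.2, ← inf_add_left t'.1.1 t'.1.2, c1, e1]
      have d2 : t.1.2 = t'.1.2 := by
        rw [← inf_add_right t.1.1 t.1.2, ← inf_add_right t'.1.1 t'.1.2, c2, e1]
      have d3 : t.2.1 = t'.2.1 := by
        rw [← inf_add_left t.2.1 t.2.2, ← inf_add_left t'.2.1 t'.2.2, c3, e2]
      have d4 : t.2.2 = t'.2.2 := by
        rw [← inf_add_right t.2.1 t.2.2, ← inf_add_right t'.2.1 t'.2.2, c4, e2]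
      exact Prod.ext (Prod.ext d1 d2) (Prod.ext d3 d4)
    have hinj2 : Set.InjOn (fun t : (Idl K × Idl K) × (Idl K × Idl K) => (rd t.2, rd t.1))
        (F : Set _) := by
      intro t ht t' ht' h
      refine hinj ht ht' ?_
      exact Prod.ext (congrArg Prod.snd h) (congrArg Prod.fst h)
    have hred : ∀ t ∈ F, Red S f u (rd t.1) ∧ Red S f v (rd t.2) ∧
        Cl f V σ A (y₀ * (gen w (rd t.1).1 / gen w (rd t.1).2) ^ k *
          (gen w (rd t.2).1 / gen w (rd t.2).2) ^ l) := by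
      intro t ht
      obtain ⟨htQ, htg⟩ := Finset.mem_filter.1 ht
      obtain ⟨r1, r2, r3, r4, r5⟩ := hQ t htQ
      have e1 : t.1.1 ⊓ t.1.2 = g.1 := congrArg Prod.fst htg
      have e2 : t.2.1 ⊓ t.2.2 = g.2 := congrArg Prod.snd htg
      have c1 := red_rd r1 r2
      have c2 := red_rd r3 r4
      rw [e1] at c1
      rw [e2] at c2
      refine ⟨c1, c2, ?_⟩
      have g1 := gen_rd hne t.1.1 t.1.2
      have g2 := gen_rd hne t.2.1 t.2.2
      rw [Prod.mk.eta] at g1 g2
      rw [g1, g2]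
      exact r5
    have b1 : (F.card : ℝ) ≤ R * (Real.exp (2 * u) * (1 + Real.exp (2 * v - Λ))) := by
      rw [← Finset.card_image_of_injOn hinj]
      refine (h1 X u v f V σ y₀ _ hu0 huX hv0 hvX hf hfX hV hσ hy ?_).trans ?_
      · intro q hq
        obtain ⟨t, ht, rfl⟩ := Finset.mem_image.1 hq
        exact hred t ht
      · refine mul_le_mul_of_nonneg_right ?_ (by positivity)
        exact mul_le_mul_of_nonneg_right (le_max_left _ _) (Real.exp_pos _).le
    have b2 : (F.card : ℝ) ≤ R * (Real.exp (2 * v) * (1 + Real.exp (2 * u - Λ))) := by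
      rw [← Finset.card_image_of_injOn hinj2]
      refine (h2 X v u f V σ y₀ _ hv0 hvX hu0 huX hf hfX hV hσ hy ?_).trans ?_
      · intro q hq
        obtain ⟨t, ht, rfl⟩ := Finset.mem_image.1 hq
        obtain ⟨r1, r2, r3⟩ := hred t ht
        refine ⟨r2, r1, ?_⟩
        have e5 : y₀ * (gen w (rd t.2).1 / gen w (rd t.2).2) ^ l *
            (gen w (rd t.1).1 / gen w (rd t.1).2) ^ k =
            y₀ * (gen w (rd t.1).1 / gen w (rd t.1).2) ^ k *
              (gen w (rd t.2).1 / gen w (rd t.2).2) ^ l := by ring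
        rw [e5]
        exact r3
      · refine mul_le_mul_of_nonneg_right ?_ (by positivity)
        exact mul_le_mul_of_nonneg_right (le_max_right _ _) (Real.exp_pos _).le
    have b3 := min_bound R u v Λ _ hR0 b1 b2
    refine b3.trans ?_
    rw [mul_assoc R]
    refine mul_le_mul_of_nonneg_left ?_ hR0
    have e6 : Real.exp (u + v) = Real.exp (a + b) * (Real.exp (-len g.1) * Real.exp (-len g.2)) := by
      rw [← Real.exp_add, ← Real.exp_add]; congr 1; rw [hu, hv]; ring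
    have e7 : Real.exp (u + v - Λ) ≤ Real.exp (a + b - Λ) :=
      Real.exp_le_exp.2 (by linarith [len_nonneg g.1, len_nonneg g.2])
    calc Real.exp (u + v) * (1 + Real.exp (u + v - Λ))
        ≤ Real.exp (u + v) * (1 + Real.exp (a + b - Λ)) :=
          mul_le_mul_of_nonneg_left (by linarith) (Real.exp_pos _).le
      _ = M * (Real.exp (-len g.1) * Real.exp (-len g.2)) := by rw [e6, hM]; ring
  -- summation over the greatest common divisors
  set I₁ : Finset (Idl K) := Q.image fun t => t.1.1 ⊓ t.1.2 with hI₁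
  set I₂ : Finset (Idl K) := Q.image fun t => t.2.1 ⊓ t.2.2 with hI₂
  have hI : Q.image ψ ⊆ I₁ ×ˢ I₂ := by
    intro g hg
    obtain ⟨t, ht, rfl⟩ := Finset.mem_image.1 hg
    rw [Finset.mem_product]
    exact ⟨Finset.mem_image_of_mem _ ht, Finset.mem_image_of_mem _ ht⟩
  have s1 : ∑ d ∈ I₁, Real.exp (-len d) ≤ D₃ * Real.exp (ε / 5 * X) := by
    refine h3 X I₁ hX ?_
    intro d hd
    obtain ⟨t, ht, rfl⟩ := Finset.mem_image.1 hd
    exact ((len_mono inf_le_left).trans (hQ t ht).1.2.2).trans haX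
  have s2 : ∑ d ∈ I₂, Real.exp (-len d) ≤ D₃ * Real.exp (ε / 5 * X) := by
    refine h3 X I₂ hX ?_
    intro d hd
    obtain ⟨t, ht, rfl⟩ := Finset.mem_image.1 hd
    exact ((len_mono inf_le_left).trans (hQ t ht).2.2.1.2.2).trans hbX
  have s0 : 0 ≤ ∑ d ∈ I₂, Real.exp (-len d) := Finset.sum_nonneg fun d _ => (Real.exp_pos _).le
  rw [Finset.card_eq_sum_card_image ψ Q]
  push_cast
  calc ∑ g ∈ Q.image ψ, ((Q.filter fun t => ψ t = g).card : ℝ)
      ≤ ∑ g ∈ Q.image ψ, R * M * (Real.exp (-len g.1) * Real.exp (-len g.2)) :=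
        Finset.sum_le_sum hfib
    _ ≤ ∑ g ∈ I₁ ×ˢ I₂, R * M * (Real.exp (-len g.1) * Real.exp (-len g.2)) :=
        Finset.sum_le_sum_of_subset_of_nonneg hI fun g _ _ => by positivity
    _ = R * M * ((∑ d ∈ I₁, Real.exp (-len d)) * ∑ e ∈ I₂, Real.exp (-len e)) := by
        rw [← Finset.mul_sum, Finset.sum_product, Finset.sum_mul_sum]
    _ ≤ R * M * ((D₃ * Real.exp (ε / 5 * X)) * (D₃ * Real.exp (ε / 5 * X))) := by
        refine mul_le_mul_of_nonneg_left ?_ (mul_nonneg hR0 hM0)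
        exact mul_le_mul s1 s2 s0 (by positivity)
    _ = max D₁ D₂ * (D₃ * D₃) * Real.exp (ε * X) * M := by
        have e8 : Real.exp (ε * X) = Real.exp (3 * (ε / 5) * X) *
            (Real.exp (ε / 5 * X) * Real.exp (ε / 5 * X)) := by
          rw [← Real.exp_add, ← Real.exp_add]; congr 1; ring
        rw [hR, e8]
        ring

end Pool.Agent.W63.AKTW
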